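import Pool.Agent.NPC.Defs

set_option autoImplicit false

namespace Pool.Agent.H441Z.DCS

open scoped Classical

/-- The adjacency matrix of a graph on `{0, ..., n-1}`, as the list of its rows. -/
noncomputable def adjM {n : ℕ} (G : SimpleGraph (Fin n)) : List (List Bool) :=
  List.ofFn fun i => List.ofFn fun j => decide (G.Adj i j)

/-- The list of the characteristic vectors of the vertex sets `Z 0, ..., Z (k-1)`. -/
def chiL {n k : ℕ} (Z : Fin k → Finset (Fin n)) : List (List Bool) :=
  List.ofFn fun i => List.ofFn fun v => decide (v ∈ Z i)

end Pool.Agent.H441Z.DCS
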