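import Pool.Agent.H441Z.DCS.Prog

set_option autoImplicit false
set_option maxHeartbeats 400000

namespace Pool.Agent.H441Z.DCS

open Pool.Agent.NPC Turing Finset
open scoped Classical

variable {n k : ℕ} (G : SimpleGraph (Fin n)) (Z : Fin k → Finset (Fin n))

noncomputable def inA : In := (adjM G, chiL Z)

theorem inA_len : (inA G Z).1.length = n := by simp [inA, adjM]

theorem tP_inA : tP (inA G Z) = tt n := by rw [tP, inA_len]
theorem mP_inA : mP (inA G Z) = mm n := by rw [mP, inA_len]

theorem map_rg {β : Type} (f : ℕ → β) : (rg (inA G Z)).map f = List.ofFn fun v : Fin n => f v := by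
  rw [rg, inA_len]
  apply List.ext_getElem <;> simp

theorem getD_ofFn {β : Type} (f : Fin n → β) (v : Fin n) (d : β) :
    (List.ofFn f).getD v d = f v := by
  rw [List.getD_eq_getElem _ _ (by simp)]
  simp

theorem adj_inA (v u : Fin n) : adj (inA G Z) v u = decide (G.Adj v u) := by
  simp only [adj, inA, adjM, getD_ofFn]

def zz (i : Fin k) : List Bool := List.ofFn fun v => decide (v ∈ Z i)

theorem zz_getD (i : Fin k) (v : Fin n) : (zz Z i).getD v false = decide (v ∈ Z i) :=
  getD_ofFn _ _ _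

theorem inA_snd : (inA G Z).2 = List.ofFn (zz Z) := rfl

theorem inU_inA (v : Fin n) : inU (inA G Z) v = !decide (∀ j, v ∉ Z j) := by
  rw [inU, inA_snd, Bool.eq_iff_iff]
  simp only [List.any_eq_true, List.mem_ofFn, exists_exists_eq_and, zz_getD, decide_eq_true_eq,
    Bool.not_eq_true', decide_eq_false_iff_not, not_forall, not_not]

def YY (n c : ℕ) : Finset (Fin n) := univ.filter fun v => c.testBit v

theorem rem_eq (c : ℕ) (v : Fin n) : rem c v = decide (v ∈ YY n c) := by
  have : rem c v = c.testBit v := by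
    rw [Nat.testBit_eq_inth]; rfl
  rw [this]
  simp [YY]

theorem evh_leaf {R : Type} [CommSemiring R] (t : R) (Y : Finset (Fin n)) (v : Fin n) :
    hom (evh t Y) {⟨1, {v}⟩} = if v ∈ Y then 0 else t := by
  rw [hom_singleton]
  simp only [evh, MonoidHom.coe_mk, OneHom.coe_mk, disjoint_singleton_left, pow_one]
  split_ifs <;> rfl

theorem vec_eq (c : ℕ) (i : Fin k) : ∀ (j : ℕ) (v : Fin n),
    ((((step (inA G Z) c (zz Z i))^[j] []).getD v 0 : ℕ) : ZMod (mm n)) =
      hom (evh ((tt n : ℕ) : ZMod (mm n)) (YY n c)) (BM G (alw Z i) j v)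
  | 0, v => by simp [BM]
  | j + 1, v => by
    rw [Function.iterate_succ_apply', step, map_rg, getD_ofFn, mP_inA, ZMod.natCast_mod, map_rg,
      List.sum_ofFn, BM, map_add, hom_mul, map_sum]
    push_cast
    rw [vec_eq c i j v]
    congr 1
    · rw [rem_eq, zz_getD, inU_inA, tP_inA]
      by_cases h1 : alw Z i v
      · rw [if_pos h1, evh_leaf]
        have : (decide (v ∈ Z i) || !(!decide (∀ j, v ∉ Z j))) = true := by
          rcases h1 with h | h <;> simp [h]
        rw [this]
        by_cases h2 : v ∈ YY n c <;> simp [h2]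
      · rw [if_neg h1, map_zero]
        have : (decide (v ∈ Z i) || !(!decide (∀ j, v ∉ Z j))) = false := by
          unfold alw at h1
          rw [not_or] at h1
          simp [h1.1, h1.2]
        rw [this]
        simp
    · congr 1
      apply sum_congr rfl
      intro u _
      rw [adj_inA]
      by_cases h : G.Adj v u
      · simp only [h, decide_true, cond_true, if_true]
        exact vec_eq c i j u
      · simp [h]

theorem partP_eq (c : ℕ) (i : Fin k) : ((partP (inA G Z) c (zz Z i) : ℕ) : ZMod (mm n)) =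
    hom (evh ((tt n : ℕ) : ZMod (mm n)) (YY n c)) (part G Z i) := by
  rw [partP, map_rg, List.sum_ofFn, part, map_sum]
  push_cast
  apply sum_congr rfl
  intro v _
  rw [zz_getD, vecN, inA_len]
  by_cases h : v ∈ Z i
  · simp only [h, decide_true, cond_true, if_true]
    exact vec_eq G Z c i n v
  · simp [h]

theorem freeP_eq (c : ℕ) (v : Fin n) : ((freeP (inA G Z) c v : ℕ) : ZMod (mm n)) =
    hom (evh ((tt n : ℕ) : ZMod (mm n)) (YY n c)) (free Z v) := by
  rw [freeP, free, map_add, hom_singleton, map_one, inU_inA, rem_eq, tP_inA]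
  push_cast
  congr 1
  by_cases h : ∀ j, v ∉ Z j
  · rw [if_pos h, evh_leaf]
    by_cases h2 : v ∈ YY n c <;> simp [h, h2]
  · rw [if_neg h]
    simp [h]

theorem prodm_cast (m : ℕ) (l : List ℕ) :
    ((prodm m l : ℕ) : ZMod m) = (l.map fun x : ℕ => (x : ZMod m)).prod := by
  induction l with
  | nil => simp [prodm]
  | cons x l ih =>
    have : prodm m (x :: l) = x * prodm m l % m := rfl
    rw [this, ZMod.natCast_mod, Nat.cast_mul, ih, List.map_cons, List.prod_cons]

theorem valP_eq (c : ℕ) : ((valP (inA G Z) c : ℕ) : ZMod (mm n)) =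
    hom (evh ((tt n : ℕ) : ZMod (mm n)) (YY n c)) (TM G Z) := by
  rw [valP, mP_inA, Nat.cast_mul, prodm_cast, prodm_cast, map_rg, inA_snd, List.map_ofFn,
    List.map_ofFn, List.map_ofFn, List.prod_ofFn, List.prod_ofFn, TM, hom_mul, hom_prodF, hom_prodF]
  congr 1
  · exact prod_congr rfl fun i _ => partP_eq G Z c i
  · exact prod_congr rfl fun v _ => freeP_eq G Z c v

theorem par_eq (c : ℕ) : par (inA G Z) c = decide (Even (YY n c).card) := by
  have h : ((rg (inA G Z)).filter (rem c)).length = (YY n c).card := by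
    have h1 : ∀ l : List ℕ, (l.filter (rem c)).length =
        (l.map fun v => if rem c v then 1 else 0).sum := by
      intro l
      induction l with
      | nil => rfl
      | cons x l ih =>
        rw [List.filter_cons, List.map_cons, List.sum_cons, ← ih]
        cases rem c x <;> simp [add_comm]
    rw [h1, map_rg, List.sum_ofFn]
    simp only [rem_eq, decide_eq_true_eq]
    rw [sum_ite_mem, univ_inter, sum_const, smul_eq_mul, mul_one]
  rw [par, h]
  simp only [Nat.even_iff]

theorem YY_bij (n : ℕ) : Function.Bijective fun c : Fin (2 ^ n) => YY n c := by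
  rw [Fintype.bijective_iff_injective_and_card]
  refine ⟨fun a b h => ?_, by simp⟩
  apply Fin.ext
  apply Nat.eq_of_testBit_eq
  intro i
  by_cases hi : i < n
  · have : (⟨i, hi⟩ : Fin n) ∈ YY n a ↔ (⟨i, hi⟩ : Fin n) ∈ YY n b := by
      have h' : YY n a = YY n b := h
      rw [h']
    simp only [YY, mem_filter, mem_univ, true_and] at this
    exact Bool.eq_iff_iff.mpr this
  · have h2 : 2 ^ n ≤ 2 ^ i := Nat.pow_le_pow_right (by norm_num) (by omega)
    rw [Nat.testBit_lt_two_pow (a.2.trans_le h2), Nat.testBit_lt_two_pow (b.2.trans_le h2)]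

theorem next_iter' (a : In) (m : ℕ) (hm : mP a = m) (j : ℕ) : ∃ E O,
    next^[j] (a, 0, 0, 0) = (a, j, E, O) ∧ (E : ZMod m) - O =
      ∑ c ∈ Finset.range j, (bif par a c then 1 else -1) * (valP a c : ZMod m) := by
  subst hm
  obtain ⟨E, O, h1, -, -, h2⟩ := next_iter a j
  exact ⟨E, O, h1, h2⟩

theorem out_iff (hne : ∀ i, (Z i).Nonempty) (hdis : Pairwise fun i j => Disjoint (Z i) (Z j)) :
    out (next^[2 ^ n] (inA G Z, 0, 0, 0)) = true ↔ Sol G Z := by
  obtain ⟨E, O, h1, h2⟩ := next_iter' (inA G Z) (mm n) (mP_inA G Z) (2 ^ n)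
  rw [h1, ← main_math G Z hne hdis, ← (YY_bij n).sum_comp]
  rw [sum_range] at h2
  have h3 : ∀ c : Fin (2 ^ n), (bif par (inA G Z) c then 1 else -1) *
      (valP (inA G Z) c : ZMod (mm n)) = (-1) ^ (YY n c).card *
        hom (evh ((tt n : ℕ) : ZMod (mm n)) (YY n c)) (TM G Z) := by
    intro c
    rw [valP_eq, par_eq]
    congr 1
    by_cases h : Even (YY n c).card
    · simp [h, h.neg_one_pow]
    · simp [h, (Nat.not_even_iff_odd.mp h).neg_one_pow]
  simp only [h3] at h2
  rw [← h2, out, mP_inA, Ne, sub_eq_zero, ZMod.natCast_eq_natCast_iff']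
  simp

theorem k_le (hne : ∀ i, (Z i).Nonempty) (hdis : Pairwise fun i j => Disjoint (Z i) (Z j)) :
    k ≤ n := by
  choose f hf using hne
  have : Function.Injective f := by
    intro i j h
    by_contra hij
    exact disjoint_left.mp (hdis hij) (hf i) (h ▸ hf j)
  simpa using Fintype.card_le_of_injective f this

theorem sz_rows (l : List (List Bool)) (h : ∀ r ∈ l, r.length = n) (hl : l.length ≤ n) :
    sz l ≤ n * (4 * n + 2) + 1 := by
  have := sz_le_length_mul l (4 * n + 1) (fun r hr => by
    have := sz_listBool_le r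
    rw [h r hr] at this
    exact this)
  exact this.trans (Nat.add_le_add_right (Nat.mul_le_mul_right _ hl) 1)

theorem sz_inA (hk : k ≤ n) : sz (inA G Z) ≤ 2 * (n * (4 * n + 2)) + 3 := by
  have h1 := sz_rows (n := n) (adjM G) (by
    intro r hr
    obtain ⟨i, rfl⟩ := List.mem_ofFn.mp hr
    simp) (by simp [adjM])
  have h2 := sz_rows (n := n) (chiL Z) (by
    intro r hr
    obtain ⟨i, rfl⟩ := List.mem_ofFn.mp hr
    simp) (by simpa [chiL] using hk)
  have h3 : sz (inA G Z) = sz (adjM G) + sz (chiL Z) + 1 := sz_pair _ _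
  omega

theorem main : ∃ (M : TM2ComputableAux Bool Bool) (p : Polynomial ℕ),
    ∀ (n k : ℕ) (G : SimpleGraph (Fin n)) (Z : Fin k → Finset (Fin n)),
      (∀ i, (Z i).Nonempty) → (Pairwise fun i j => Disjoint (Z i) (Z j)) →
      ∃ b : Bool, (b = true ↔ Sol G Z) ∧
        Nonempty (TM2OutputsInTime M.tm ((bits (adjM G, chiL Z)).map M.inputAlphabet.invFun)
          (some ([b].map M.outputAlphabet.invFun)) (2 ^ n * p.eval n)) := by
  obtain ⟨c, p, h⟩ := exists_prog
  refine ⟨toAux c, p.comp (Polynomial.C 2 * (Polynomial.X * (Polynomial.C 4 * Polynomial.X +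
    Polynomial.C 2)) + Polynomial.C 3) + Polynomial.C 1, fun n k G Z hne hdis =>
    ⟨_, out_iff G Z hne hdis, ?_⟩⟩
  have h1 := h (inA G Z)
  rw [inA_len] at h1
  obtain ⟨h2⟩ := toAux_outputs h1
  refine ⟨outputs_conv rfl rfl ?_ h2⟩
  simp only [Polynomial.eval_add, Polynomial.eval_mul, Polynomial.eval_C, Polynomial.eval_X,
    Polynomial.eval_comp]
  have h3 := eval_mono p (sz_inA G Z (k_le Z hne hdis))
  have h4 : 1 ≤ 2 ^ n := Nat.one_le_two_pow
  have h5 := Nat.mul_le_mul_left (2 ^ n) h3
  rw [mul_add]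
  omega

end Pool.Agent.H441Z.DCS
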