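import Pool.Agent.H671R2.PolyAuto

set_option autoImplicit false
set_option maxHeartbeats 400000

namespace Pool.Agent.H441Z.DCS

open Pool.Agent.NPC Turing

def dblA : Cmd ℕ := Cmd.loop 1 (Cmd.seq (Cmd.pop 1) (Cmd.seq (Cmd.push 2 false) (Cmd.push 2 false)))

theorem dblA_runs (a : List Bool) : ∀ (l c : List Bool),
    Runs dblA (st a l c) (st a [] (List.replicate (2 * l.length) false ++ c)) (4 * l.length + 1)
  | [], c => (Runs.loopNil (by simp)).conv rfl (by simp) (by simp)
  | b :: l, c => by
    have h1 : Runs (Cmd.seq (Cmd.pop 1) (Cmd.seq (Cmd.push 2 false) (Cmd.push 2 false)))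
        (st a (b :: l) c) (st a l (false :: false :: c)) 3 :=
      ((Runs.pop _ 1).seq ((Runs.push _ 2 false).seq (Runs.push _ 2 false))).conv rfl
        (by simp) le_rfl
    refine (Runs.loopCons (by simp) h1 (dblA_runs a l _)).conv rfl ?_ ?_
    · congr 1
      rw [List.length_cons, show 2 * (l.length + 1) = 2 * l.length + 2 by ring,
        List.replicate_add, List.append_assoc]
      rfl
    · simp only [List.length_cons]; omega

def expoBody : Cmd ℕ :=
  Cmd.cases 0 Cmd.skip (Cmd.pop 0) (Cmd.seq (Cmd.pop 0) (Cmd.seq dblA (mv 2 1)))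

theorem expoLoop_runs : ∀ (l : List Bool) (k : ℕ),
    Runs (Cmd.loop 0 expoBody) (st l (List.replicate k false) [])
      (st [] (List.replicate (k * 2 ^ l.count true) false) [])
      ((12 * (k * 2 ^ l.count true) + 6) * l.length + 1)
  | [], k => (Runs.loopNil (by simp)).conv rfl (by simp) (by simp)
  | false :: l, k => by
    have h1 : Runs expoBody (st (false :: l) (List.replicate k false) [])
        (st l (List.replicate k false) []) 2 :=
      Runs.casesFalse (l := l) rfl ((Runs.pop _ 0).conv rfl (by simp) le_rfl)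
    refine (Runs.loopCons (by simp) h1 (expoLoop_runs l k)).conv rfl (by simp) ?_
    simp only [List.length_cons, List.count_cons]
    simp
    rw [mul_add _ l.length 1]
    omega
  | true :: l, k => by
    have h0 : Runs (Cmd.pop 0) (st (true :: l) (List.replicate k false) [])
        (st l (List.replicate k false) []) 1 := (Runs.pop _ 0).conv rfl (by simp) le_rfl
    have h2 := dblA_runs l (List.replicate k false) []
    have h3 : Runs (mv 2 1) (st l [] (List.replicate (2 * (List.replicate k false).length) false ++ []))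
        (st l (List.replicate (2 * k) false) []) (4 * (2 * k) + 1) :=
      (mv_runs (by decide) (List.replicate (2 * k) false) _ _ (by simp) (by simp)).mono (by simp)
    have h1 : Runs expoBody (st (true :: l) (List.replicate k false) [])
        (st l (List.replicate (2 * k) false) []) (12 * k + 4) :=
      (Runs.casesTrue (l := l) rfl (h0.seq (h2.seq h3))).mono (by simp; omega)
    have e : 2 * k * 2 ^ l.count true = k * 2 ^ (true :: l).count true := by
      simp [pow_succ]; ring
    refine (Runs.loopCons (by simp) h1 (expoLoop_runs l (2 * k))).conv rfl (by rw [e]) ?_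
    rw [e, List.length_cons]
    have : k ≤ k * 2 ^ (true :: l).count true := Nat.le_mul_of_pos_right _ (by positivity)
    nlinarith

def expo : Cmd ℕ := Cmd.seq (Cmd.push 1 false) (Cmd.seq (Cmd.loop 0 expoBody) (mv 1 0))

theorem expo_runs (l : List Bool) : Runs expo (inp l)
    (inp (List.replicate (2 ^ l.count true) false)) (2 ^ l.count true * (18 * l.length + 7)) := by
  rw [inp_eq_st, inp_eq_st]
  have h1 : Runs (Cmd.push 1 false) (st l [] []) (st l (List.replicate 1 false) []) 1 :=
    (Runs.push _ 1 false).conv rfl (by simp) le_rfl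
  have h2 := expoLoop_runs l 1
  rw [one_mul] at h2
  have h3 : Runs (mv 1 0) (st [] (List.replicate (2 ^ l.count true) false) [])
      (st (List.replicate (2 ^ l.count true) false) [] []) (4 * 2 ^ l.count true + 1) :=
    (mv_runs (by decide) (List.replicate (2 ^ l.count true) false) _ _ (by simp)
      (by simp)).mono (by simp)
  refine (h1.seq (h2.seq h3)).mono ?_
  have : 1 ≤ 2 ^ l.count true := Nat.one_le_two_pow
  nlinarith

theorem count_unary (n : ℕ) : (bits (List.replicate n ())).count true = n := by
  induction n with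
  | zero => rfl
  | succ n ih =>
    have : bits (List.replicate (n + 1) ()) = true :: false :: bits (List.replicate n ()) := rfl
    rw [this]
    simp [ih]

theorem rawBool : PC (bits : Bool → List Bool) (fun x : List Bool => x) (fun b => [b]) := by
  refine ⟨Cmd.cases 0 Cmd.skip Cmd.skip (Cmd.seq (Cmd.pop 0) (Cmd.seq (Cmd.pop 0)
    (Cmd.seq (Cmd.pop 0) (Cmd.push 0 true)))), 10, fun b => ?_⟩
  rw [inp_eq_st, inp_eq_st]
  cases b with
  | false => exact (Runs.casesFalse (l := []) rfl (Runs.skip _)).mono (by simp)
  | true =>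
    refine (Runs.casesTrue (l := [false, false]) rfl ((Runs.pop _ 0).seq ((Runs.pop _ 0).seq
      ((Runs.pop _ 0).seq (Runs.push _ 0 true))))).conv rfl ?_ (by simp)
    have : bits true = [true, false, false] := rfl
    simp [this]

/-- iteration `2 ^ n` times of a polynomial-time function on states of polynomial size -/
theorem exp_iter {α β : Type} [TEnc α] [TEnc β] {n : α → ℕ} {x : α → β} {f : β → β}
    {out : β → Bool} (hn : UPoly n) (hx : Poly x) (hf : Poly f) (hout : Poly out)
    (q : Polynomial ℕ) (hq : ∀ a, ∀ k ≤ 2 ^ n a, sz (f^[k] (x a)) ≤ q.eval (sz a)) :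
    ∃ (c : Cmd ℕ) (p : Polynomial ℕ), ∀ a, Runs c (inp (bits a))
      (inp [out (f^[2 ^ n a] (x a))]) (2 ^ n a * p.eval (sz a)) := by
  obtain ⟨u, hu⟩ := Poly.sz_le hn
  obtain ⟨d, r, hd⟩ := PC.node (Poly.toT' hn) (Poly.toT' hx)
  obtain ⟨c, p, hf⟩ := hf
  obtain ⟨e, s, he⟩ := PC.comp (g := fun b => [b]) (f := out) rawBool hout
  refine ⟨Cmd.seq d (Cmd.seq split (Cmd.seq (od expo)
    (Cmd.seq (Cmd.loop 1 (Cmd.seq (Cmd.pop 1) (ev c))) e))),
    r + Polynomial.C 23 * u + p.comp q + s.comp q + Polynomial.C 13, fun a => ?_⟩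
  have h1 := hd a
  rw [inp_eq_st, inp_eq_st] at h1
  have h2 := split_runs (toT (List.replicate (n a) ())) (toT (x a))
  have h3 := od_runs (expo_runs (toT (List.replicate (n a) ())).enc.reverse) (bits (x a))
  have e0 : (toT (List.replicate (n a) ())).enc.reverse.count true = n a := by
    rw [List.count_reverse]; exact count_unary _
  rw [e0] at h3
  have h4 := loop_runs hf (q.eval (sz a)) (List.replicate (2 ^ n a) false) (x a) (by
    intro k hk
    exact hq a k (by simpa using hk))
  rw [List.length_replicate] at h4
  have h5 := he (f^[2 ^ n a] (x a))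
  rw [inp_eq_st] at h5
  rw [inp_eq_st]
  refine (h1.seq (h2.seq (h3.seq (h4.seq h5)))).mono ?_
  have e1 := hu a
  have e2 : (toT (List.replicate (n a) ())).size = sz (List.replicate (n a) ()) := rfl
  have e3 : (toT (List.replicate (n a) ())).enc.reverse.length = sz (List.replicate (n a) ()) := by
    rw [List.length_reverse]; rfl
  have e4 : s.eval (bits (f^[2 ^ n a] (x a))).length ≤ s.eval (q.eval (sz a)) :=
    eval_mono s (hq a _ le_rfl)
  rw [e2, e3, bits_length]
  simp only [Polynomial.eval_add, Polynomial.eval_mul, Polynomial.eval_C, Polynomial.eval_comp]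
  have h6 : 1 ≤ 2 ^ n a := Nat.one_le_two_pow
  generalize 2 ^ n a = N at *
  generalize r.eval (sz a) = R at *
  generalize u.eval (sz a) = U at *
  generalize p.eval (q.eval (sz a)) = P at *
  generalize s.eval (q.eval (sz a)) = S at *
  generalize sz (List.replicate (n a) ()) = L at *
  generalize s.eval (bits (f^[N] (x a))).length = S' at *
  nlinarith [Nat.mul_le_mul_left N e1, Nat.mul_le_mul_right R h6, Nat.mul_le_mul_right U h6,
    Nat.mul_le_mul_right S h6]

/-- a program as a Turing machine -/
def toAux (c : Cmd ℕ) : TM2ComputableAux Bool Bool :=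
  { tm := (c.map (Fin.ofNat (c.bd + 1))).toTM
    inputAlphabet := Equiv.refl Bool
    outputAlphabet := Equiv.refl Bool }

theorem toAux_outputs {c : Cmd ℕ} {x y : List Bool} {t : ℕ} (h : Runs c (inp x) (inp y) t) :
    Nonempty (TM2OutputsInTime (toAux c).tm (x.map (toAux c).inputAlphabet.invFun)
      (some (y.map (toAux c).outputAlphabet.invFun)) (t + 1)) := by
  obtain ⟨s, hs, hr⟩ := h
  have h1 := hr.restrict (n := c.bd) (by omega)
  have key : Nonempty (TM2OutputsInTime (c.map (Fin.ofNat (c.bd + 1))).toTM x (some y) (s + 1)) := by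
    refine toTM_outputs ?_
    convert! h1 using 1
    · funext i
      by_cases hi : i = 0
      · subst hi; simp [inp]
      · have : (i : ℕ) ≠ 0 := fun h => hi (Fin.ext h)
        simp [inp, hi, this]
    · funext i
      by_cases hi : i = 0
      · subst hi; simp [inp]
      · have : (i : ℕ) ≠ 0 := fun h => hi (Fin.ext h)
        simp [inp, hi, this]
  exact ⟨outputs_conv (List.map_id x).symm (List.map_id y).symm (by omega) key.some⟩

end Pool.Agent.H441Z.DCS
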