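import Mathlib

set_option autoImplicit false
set_option maxHeartbeats 400000

namespace Pool.Agent.H441Z.DCS

open Finset
open scoped Classical

/-- size and support of a combinatorial object -/
@[ext] structure Ob (V : Type) where
  sz : ℕ
  sp : Finset V

section general
variable {V : Type} [DecidableEq V]

noncomputable instance : CommMonoid (Ob V) where
  mul p q := ⟨p.sz + q.sz, p.sp ∪ q.sp⟩
  one := ⟨0, ∅⟩
  mul_assoc a b c := Ob.ext (add_assoc _ _ _) (union_assoc _ _ _)
  one_mul a := Ob.ext (zero_add _) (empty_union _)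
  mul_one a := Ob.ext (add_zero _) (union_empty _)
  mul_comm a b := Ob.ext (add_comm _ _) (union_comm _ _)

@[simp] theorem mul_sz (p q : Ob V) : (p * q).sz = p.sz + q.sz := rfl
@[simp] theorem mul_sp (p q : Ob V) : (p * q).sp = p.sp ∪ q.sp := rfl
@[simp] theorem one_sz : (1 : Ob V).sz = 0 := rfl
@[simp] theorem one_sp : (1 : Ob V).sp = ∅ := rfl

theorem prod_sz {ι : Type} (s : Finset ι) (c : ι → Ob V) :
    (∏ i ∈ s, c i).sz = ∑ i ∈ s, (c i).sz := by
  induction s using Finset.induction_on with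
  | empty => simp
  | insert a s ha ih => rw [prod_insert ha, sum_insert ha, mul_sz, ih]

theorem prod_sp {ι : Type} (s : Finset ι) (c : ι → Ob V) :
    (∏ i ∈ s, c i).sp = s.biUnion fun i => (c i).sp := by
  induction s using Finset.induction_on with
  | empty => simp
  | insert a s ha ih => rw [prod_insert ha, biUnion_insert, mul_sp, ih]

noncomputable def mul (M N : Multiset (Ob V)) : Multiset (Ob V) :=
  M.bind fun p => N.map fun q => p * q

theorem mem_mul {M N : Multiset (Ob V)} {x : Ob V} :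
    x ∈ mul M N ↔ ∃ p ∈ M, ∃ q ∈ N, p * q = x := by
  simp [mul, Multiset.mem_bind, Multiset.mem_map]

noncomputable def hom {R : Type} [CommSemiring R] (φ : Ob V →* R) : Multiset (Ob V) →+ R where
  toFun M := (M.map φ).sum
  map_zero' := by simp
  map_add' := by simp

theorem hom_singleton {R : Type} [CommSemiring R] (φ : Ob V →* R) (p : Ob V) :
    hom φ {p} = φ p := by simp [hom]

theorem hom_mul {R : Type} [CommSemiring R] (φ : Ob V →* R) (M N : Multiset (Ob V)) :
    hom φ (mul M N) = hom φ M * hom φ N := by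
  simp only [hom, mul, AddMonoidHom.coe_mk, ZeroHom.coe_mk, Multiset.map_bind, Multiset.sum_bind,
    Multiset.map_map, Function.comp_def, map_mul, Multiset.sum_map_mul_left,
    Multiset.sum_map_mul_right]

noncomputable def prodF : (k : ℕ) → (Fin k → Multiset (Ob V)) → Multiset (Ob V)
  | 0, _ => {1}
  | k + 1, F => mul (F 0) (prodF k fun i => F i.succ)

theorem hom_prodF {R : Type} [CommSemiring R] (φ : Ob V →* R) :
    ∀ (k : ℕ) (F : Fin k → Multiset (Ob V)), hom φ (prodF k F) = ∏ i, hom φ (F i)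
  | 0, F => by simp [prodF, hom_singleton]
  | k + 1, F => by rw [prodF, hom_mul, hom_prodF φ k, Fin.prod_univ_succ]

theorem mem_prodF : ∀ (k : ℕ) (F : Fin k → Multiset (Ob V)) (x : Ob V),
    x ∈ prodF k F ↔ ∃ c : Fin k → Ob V, (∀ i, c i ∈ F i) ∧ ∏ i, c i = x
  | 0, F, x => by
    simp only [prodF, Multiset.mem_singleton, IsEmpty.forall_iff, univ_eq_empty, prod_empty,
      true_and, exists_const]
    exact eq_comm
  | k + 1, F, x => by
    rw [prodF, mem_mul]
    constructor
    · rintro ⟨p, hp, q, hq, rfl⟩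
      obtain ⟨c, hc, rfl⟩ := (mem_prodF k _ q).mp hq
      refine ⟨Fin.cons p c, fun i => ?_, ?_⟩
      · refine Fin.cases ?_ (fun i => ?_) i
        · exact hp
        · exact hc i
      · rw [Fin.prod_univ_succ]; rfl
    · rintro ⟨c, hc, rfl⟩
      exact ⟨c 0, hc 0, ∏ i : Fin k, c i.succ, (mem_prodF k _ _).mpr
        ⟨fun i => c i.succ, fun i => hc _, rfl⟩, (Fin.prod_univ_succ c).symm⟩

/-- evaluation with the vertices of `Y` removed -/
noncomputable def evh {R : Type} [CommSemiring R] (t : R) (Y : Finset V) : Ob V →* R where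
  toFun p := if Disjoint p.sp Y then t ^ p.sz else 0
  map_one' := by simp
  map_mul' p q := by
    simp only [mul_sp, mul_sz, disjoint_union_left, pow_add]
    by_cases h1 : Disjoint p.sp Y <;> by_cases h2 : Disjoint q.sp Y <;> simp [h1, h2]

noncomputable def wth (r : ℝ) : Ob V →* ℝ where
  toFun p := r ^ p.sz
  map_one' := by simp
  map_mul' p q := by simp [pow_add]

theorem hom_wth_nonneg {r : ℝ} (hr : 0 ≤ r) (M : Multiset (Ob V)) : 0 ≤ hom (wth r) M := by
  apply Multiset.sum_nonneg
  intro x hx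
  obtain ⟨p, -, rfl⟩ := Multiset.mem_map.mp hx
  exact pow_nonneg hr _

theorem count_le_wt {r : ℝ} (hr : 0 ≤ r) (M : Multiset (Ob V)) (p : Ob V) :
    (M.count p : ℝ) * r ^ p.sz ≤ hom (wth r) M := by
  induction M using Multiset.induction_on with
  | empty => simp
  | cons a M ih =>
    rw [← Multiset.singleton_add, map_add, hom_singleton, Multiset.count_add,
      Multiset.count_singleton]
    push_cast
    have h0 : 0 ≤ wth r a := pow_nonneg hr _
    split_ifs with h
    · subst h
      have : wth r p = r ^ p.sz := rfl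
      rw [this]
      linarith
    · linarith

variable [Fintype V]

theorem incl_excl {R : Type} [CommRing R] (t : R) (M : Multiset (Ob V)) :
    ∑ Y : Finset V, (-1) ^ Y.card * hom (evh t Y) M =
      (M.map fun p => if p.sp = univ then t ^ p.sz else 0).sum := by
  induction M using Multiset.induction_on with
  | empty => simp
  | cons a M ih =>
    rw [Multiset.map_cons, Multiset.sum_cons, ← ih, ← Multiset.singleton_add]
    simp only [map_add, mul_add, sum_add_distrib, hom_singleton]
    congr 1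
    have h1 : ∀ Y : Finset V, (-1 : R) ^ Y.card * evh t Y a =
        (if Y ∈ (a.spᶜ).powerset then (-1 : R) ^ Y.card else 0) * t ^ a.sz := by
      intro Y
      have : Y ∈ (a.spᶜ).powerset ↔ Disjoint a.sp Y := by
        rw [mem_powerset, subset_compl_iff_disjoint_left]
      simp only [evh, MonoidHom.coe_mk, OneHom.coe_mk, this]
      split_ifs <;> simp
    simp only [h1]
    rw [← sum_mul, sum_ite_mem, univ_inter]
    have h2 := sum_powerset_neg_one_pow_card (x := a.spᶜ)
    have h3 : ∑ m ∈ (a.spᶜ).powerset, (-1 : R) ^ m.card =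
        ((∑ m ∈ (a.spᶜ).powerset, (-1 : ℤ) ^ m.card : ℤ) : R) := by push_cast; rfl
    rw [h3, h2]
    simp only [compl_eq_empty_iff]
    split_ifs <;> simp

theorem top_term {R : Type} [CommRing R] (t : R) (n : ℕ) (hn : Fintype.card V = n)
    (ht : t ^ (n + 1) = 0) (M : Multiset (Ob V)) (hM : ∀ p ∈ M, p.sp.card ≤ p.sz) :
    (M.map fun p => if p.sp = univ then t ^ p.sz else 0).sum =
      (M.count ⟨n, univ⟩ : R) * t ^ n := by
  induction M using Multiset.induction_on with
  | empty => simp
  | cons a M ih =>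
    rw [Multiset.map_cons, Multiset.sum_cons, ih (fun p hp => hM p (Multiset.mem_cons_of_mem hp)),
      Multiset.count_cons]
    have ha := hM a (Multiset.mem_cons_self _ _)
    push_cast
    by_cases h : (⟨n, univ⟩ : Ob V) = a
    · subst h
      simp only [if_true]
      ring
    · rw [if_neg h]
      by_cases h2 : a.sp = univ
      · rw [if_pos h2]
        rw [h2, card_univ, hn] at ha
        have : a.sz ≠ n := fun h3 => h (Ob.ext h3.symm h2.symm)
        obtain ⟨d, hd⟩ : ∃ d, a.sz = n + 1 + d := ⟨a.sz - (n + 1), by omega⟩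
        rw [hd, pow_add, ht]
        ring
      · rw [if_neg h2]; ring

variable (G : SimpleGraph V) (al : V → Prop)

/-- branching walks of depth at most `j` from `v` through allowed vertices -/
noncomputable def BM : ℕ → V → Multiset (Ob V)
  | 0, _ => 0
  | j + 1, v => (if al v then {⟨1, {v}⟩} else 0) +
      mul (BM j v) (∑ u, if G.Adj v u then BM j u else 0)

theorem mem_BM_succ {j : ℕ} {v : V} {x : Ob V} : x ∈ BM G al (j + 1) v ↔
    (al v ∧ x = ⟨1, {v}⟩) ∨ ∃ p ∈ BM G al j v, ∃ u, G.Adj v u ∧ ∃ q ∈ BM G al j u, p * q = x := by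
  rw [BM, Multiset.mem_add, mem_mul]
  apply or_congr
  · split_ifs with h <;> simp [h]
  · constructor
    · rintro ⟨p, hp, q, hq, rfl⟩
      rw [Multiset.mem_sum] at hq
      obtain ⟨u, -, hu⟩ := hq
      split_ifs at hu with h
      · exact ⟨p, hp, u, h, q, hu, rfl⟩
      · simp at hu
    · rintro ⟨p, hp, u, hu, q, hq, rfl⟩
      refine ⟨p, hp, q, ?_, rfl⟩
      rw [Multiset.mem_sum]
      exact ⟨u, mem_univ _, by rw [if_pos hu]; exact hq⟩

theorem BM_sound : ∀ (j : ℕ) (v : V) (x : Ob V), x ∈ BM G al j v →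
    v ∈ x.sp ∧ x.sp.card ≤ x.sz ∧ (∀ w ∈ x.sp, al w) ∧ (G.induce (x.sp : Set V)).Connected
  | 0, v, x, h => by simp [BM] at h
  | j + 1, v, x, h => by
    rcases (mem_BM_succ G al).mp h with ⟨h1, rfl⟩ | ⟨p, hp, u, hu, q, hq, rfl⟩
    · refine ⟨by simp, by simp, by simpa using h1, ?_⟩
      have : Nonempty ((({v} : Finset V) : Set V)) := ⟨⟨v, by simp⟩⟩
      have : Subsingleton ((({v} : Finset V) : Set V)) := by
        rw [coe_singleton]; infer_instance
      exact ⟨SimpleGraph.Preconnected.of_subsingleton⟩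
    · obtain ⟨a1, a2, a3, a4⟩ := BM_sound j v p hp
      obtain ⟨b1, b2, b3, b4⟩ := BM_sound j u q hq
      refine ⟨mem_union_left _ a1, (card_union_le _ _).trans (add_le_add a2 b2), fun w hw => ?_, ?_⟩
      · rcases mem_union.mp hw with hw | hw
        · exact a3 w hw
        · exact b3 w hw
      · rw [mul_sp, coe_union]
        exact SimpleGraph.connected_induce_union a4.preconnected b4.preconnected a1 b1 hu

theorem BM_mono : ∀ (j : ℕ) (v : V) (x : Ob V), x ∈ BM G al j v → x ∈ BM G al (j + 1) v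
  | 0, v, x, h => by simp [BM] at h
  | j + 1, v, x, h => by
    rw [mem_BM_succ] at h ⊢
    rcases h with h | ⟨p, hp, u, hu, q, hq, rfl⟩
    · exact Or.inl h
    · exact Or.inr ⟨p, BM_mono j v p hp, u, hu, q, BM_mono j u q hq, rfl⟩

theorem BM_mono' {j l : ℕ} (h : j ≤ l) (v : V) (x : Ob V) (hx : x ∈ BM G al j v) :
    x ∈ BM G al l v := by
  induction l, h using Nat.le_induction with
  | base => exact hx
  | succ l _ ih => exact BM_mono G al l v x ih

theorem BM_leaf : ∀ (j : ℕ) (v : V) (x : Ob V), x ∈ BM G al j v → ∀ a ∈ x.sp, ∀ w, G.Adj a w →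
    al w → x * ⟨1, {w}⟩ ∈ BM G al (j + 1) v
  | 0, v, x, h, _, _, _, _, _ => by simp [BM] at h
  | j + 1, v, x, h, a, ha, w, hw, hal => by
    rcases (mem_BM_succ G al).mp h with ⟨h1, rfl⟩ | ⟨p, hp, u, hu, q, hq, rfl⟩
    · rw [mem_singleton] at ha
      subst ha
      exact (mem_BM_succ G al).mpr (Or.inr ⟨_, h, w, hw, _,
        (mem_BM_succ G al).mpr (Or.inl ⟨hal, rfl⟩), rfl⟩)
    · rcases mem_union.mp ha with ha | ha
      · refine (mem_BM_succ G al).mpr (Or.inr ⟨_, BM_leaf j v p hp a ha w hw hal, u, hu, q,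
          BM_mono G al j u q hq, ?_⟩)
        rw [mul_right_comm]
      · refine (mem_BM_succ G al).mpr (Or.inr ⟨p, BM_mono G al j v p hp, u, hu, _,
          BM_leaf j u q hq a ha w hw hal, ?_⟩)
        rw [mul_assoc]

theorem BM_complete (D : G.Subgraph) (hD : D.Connected) (hal : ∀ w ∈ D.verts, al w) {v : V}
    (hv : v ∈ D.verts) : (⟨D.verts.toFinset.card, D.verts.toFinset⟩ : Ob V) ∈
      BM G al (Fintype.card V) v := by
  have key : ∀ m, m + 1 ≤ D.verts.toFinset.card → ∃ S : Finset V, (S : Set V) ⊆ D.verts ∧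
      S.card = m + 1 ∧ (⟨m + 1, S⟩ : Ob V) ∈ BM G al (m + 1) v := by
    intro m
    induction m with
    | zero =>
      intro _
      exact ⟨{v}, by simpa using hv, by simp,
        (mem_BM_succ G al).mpr (Or.inl ⟨hal v hv, rfl⟩)⟩
    | succ m ih =>
      intro hm
      obtain ⟨S, hS, hc, hB⟩ := ih (by omega)
      have hvS : v ∈ S := (BM_sound G al _ _ _ hB).1
      obtain ⟨y, hy, hyS⟩ : ∃ y ∈ D.verts.toFinset, y ∉ S := by
        by_contra hcon
        push Not at hcon
        have := card_le_card (show D.verts.toFinset ⊆ S from hcon)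
        omega
      rw [Set.mem_toFinset] at hy
      obtain ⟨p⟩ := hD.coe.preconnected ⟨v, hv⟩ ⟨y, hy⟩
      obtain ⟨d, -, h1, h2⟩ := p.exists_boundary_dart {z | z.1 ∈ S} hvS hyS
      have hadj : G.Adj d.fst.1 d.snd.1 := D.adj_sub d.adj
      have := BM_leaf G al _ _ _ hB d.fst.1 h1 d.snd.1 hadj (hal _ d.snd.2)
      refine ⟨S ∪ {d.snd.1}, ?_, ?_, this⟩
      · rw [coe_union]
        exact Set.union_subset hS (by simp)
      · rw [card_union_of_disjoint (disjoint_singleton_right.mpr h2), hc, card_singleton]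
  have hpos : 0 < D.verts.toFinset.card := card_pos.mpr ⟨v, Set.mem_toFinset.mpr hv⟩
  obtain ⟨m, hm⟩ : ∃ m, D.verts.toFinset.card = m + 1 := ⟨_, (Nat.succ_pred_eq_of_pos hpos).symm⟩
  obtain ⟨S, hS, hc, hB⟩ := key m hm.ge
  have hSD : S = D.verts.toFinset := by
    apply eq_of_subset_of_card_le
    · intro x hx
      exact Set.mem_toFinset.mpr (hS hx)
    · omega
  rw [hm, ← hSD]
  refine BM_mono' G al ?_ v _ hB
  rw [← hc]
  exact card_le_univ S

theorem BM_wt {r : ℝ} (hr : 0 ≤ r) (hr' : 4 * (Fintype.card V : ℝ) * r ≤ 1) :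
    ∀ (j : ℕ) (v : V), hom (wth r) (BM G al j v) ≤ 2 * r
  | 0, v => by simp [BM]; linarith
  | j + 1, v => by
    rw [BM, map_add, hom_mul, map_sum]
    have h1 : hom (wth r) (if al v then ({⟨1, {v}⟩} : Multiset (Ob V)) else 0) ≤ r := by
      split_ifs
      · rw [hom_singleton]; simp [wth]
      · simpa using hr
    have h2 : ∑ u, hom (wth r) (if G.Adj v u then BM G al j u else 0) ≤
        (Fintype.card V : ℝ) * (2 * r) := by
      calc _ ≤ ∑ _u : V, 2 * r := by
            apply sum_le_sum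
            intro u _
            split_ifs
            · exact BM_wt hr hr' j u
            · simpa using hr
        _ = _ := by simp
    have h3 := BM_wt hr hr' j v
    have h4 : 0 ≤ ∑ u, hom (wth r) (if G.Adj v u then BM G al j u else 0) :=
      sum_nonneg fun u _ => hom_wth_nonneg hr _
    have h5 := mul_le_mul h3 h2 h4 (by linarith)
    nlinarith

end general

section total
variable {n k : ℕ} (G : SimpleGraph (Fin n)) (Z : Fin k → Finset (Fin n))

def alw (i : Fin k) (v : Fin n) : Prop := v ∈ Z i ∨ ∀ j, v ∉ Z j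

noncomputable def part (i : Fin k) : Multiset (Ob (Fin n)) :=
  ∑ v, if v ∈ Z i then BM G (alw Z i) n v else 0

noncomputable def free (v : Fin n) : Multiset (Ob (Fin n)) :=
  {1} + if ∀ j, v ∉ Z j then {⟨1, {v}⟩} else 0

noncomputable def TM : Multiset (Ob (Fin n)) := mul (prodF k (part G Z)) (prodF n (free Z))

theorem mem_part {i : Fin k} {x : Ob (Fin n)} :
    x ∈ part G Z i ↔ ∃ v ∈ Z i, x ∈ BM G (alw Z i) n v := by
  rw [part, Multiset.mem_sum]
  constructor
  · rintro ⟨v, -, hv⟩
    split_ifs at hv with h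
    · exact ⟨v, h, hv⟩
    · simp at hv
  · rintro ⟨v, h, hv⟩
    exact ⟨v, mem_univ _, by rw [if_pos h]; exact hv⟩

theorem mem_free {v : Fin n} {x : Ob (Fin n)} :
    x ∈ free Z v ↔ x = 1 ∨ ((∀ j, v ∉ Z j) ∧ x = ⟨1, {v}⟩) := by
  rw [free, Multiset.mem_add, Multiset.mem_singleton]
  apply or_congr Iff.rfl
  split_ifs with h
  · simp [h]
  · simp [h]

theorem free_card {v : Fin n} {x : Ob (Fin n)} (h : x ∈ free Z v) : x.sp.card ≤ x.sz := by
  rcases (mem_free Z).mp h with rfl | ⟨-, rfl⟩ <;> simp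

theorem prod_card {ι : Type} [Fintype ι] (c : ι → Ob (Fin n)) (h : ∀ i, (c i).sp.card ≤ (c i).sz) :
    (∏ i, c i).sp.card ≤ (∏ i, c i).sz := by
  rw [prod_sp, prod_sz]
  exact card_biUnion_le.trans (sum_le_sum fun i _ => h i)

theorem TM_card (x : Ob (Fin n)) (hx : x ∈ TM G Z) : x.sp.card ≤ x.sz := by
  obtain ⟨p, hp, q, hq, rfl⟩ := mem_mul.mp hx
  obtain ⟨c, hc, rfl⟩ := (mem_prodF _ _ _).mp hp
  obtain ⟨d, hd, rfl⟩ := (mem_prodF _ _ _).mp hq
  refine (card_union_le _ _).trans (add_le_add (prod_card c fun i => ?_)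
    (prod_card d fun v => free_card Z (hd v)))
  obtain ⟨v, -, hv⟩ := (mem_part G Z).mp (hc i)
  exact (BM_sound G _ _ _ _ hv).2.1

theorem disjoint_of_card {ι : Type} [Fintype ι] (A : ι → Finset (Fin n))
    (h : ∑ i, (A i).card ≤ (univ.biUnion A).card) : Pairwise fun i j => Disjoint (A i) (A j) := by
  intro i j hij
  have e1 : (univ : Finset ι) = insert i (insert j ((univ.erase i).erase j)) := by
    ext x
    simp only [mem_univ, mem_insert, mem_erase, true_iff, and_true]
    tauto
  have hi : i ∉ insert j ((univ.erase i).erase j) := by simp [hij]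
  have hj : j ∉ (univ.erase i).erase j := by simp
  rw [e1, sum_insert hi, sum_insert hj, biUnion_insert, biUnion_insert, ← union_assoc] at h
  have h1 := card_union_le (A i ∪ A j) (((univ.erase i).erase j).biUnion A)
  have h2 : (((univ.erase i).erase j).biUnion A).card ≤
      ∑ x ∈ (univ.erase i).erase j, (A x).card := card_biUnion_le
  have h3 := card_union_le (A i) (A j)
  exact card_union_eq_card_add_card.mp (by omega)

/-- solvability of the instance -/
def Sol : Prop := ∃ D : Fin k → G.Subgraph,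
  (∀ i, (D i).Connected ∧ (Z i : Set (Fin n)) ⊆ (D i).verts) ∧
    Pairwise fun i j => Disjoint (D i).verts (D j).verts

theorem mem_TM_iff (hne : ∀ i, (Z i).Nonempty) (hdis : Pairwise fun i j => Disjoint (Z i) (Z j)) :
    (⟨n, univ⟩ : Ob (Fin n)) ∈ TM G Z ↔ Sol G Z := by
  constructor
  · intro hx
    obtain ⟨p, hp, q, hq, hpq⟩ := mem_mul.mp hx
    obtain ⟨c, hc, rfl⟩ := (mem_prodF _ _ _).mp hp
    obtain ⟨d, hd, rfl⟩ := (mem_prodF _ _ _).mp hq
    have hs : ∀ i, (c i).sp.card ≤ (c i).sz ∧ (∀ w ∈ (c i).sp, alw Z i w) ∧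
        (G.induce ((c i).sp : Set (Fin n))).Connected := by
      intro i
      obtain ⟨v, -, hv⟩ := (mem_part G Z).mp (hc i)
      exact (BM_sound G _ _ _ _ hv).2
    have e1 : (∏ i, c i).sz + (∏ v, d v).sz = n := congrArg Ob.sz hpq
    have e2 : (∏ i, c i).sp ∪ (∏ v, d v).sp = univ := congrArg Ob.sp hpq
    have e3 := prod_card d fun v => free_card Z (hd v)
    have e4 := card_union_le (∏ i, c i).sp (∏ v, d v).sp
    rw [e2, card_univ, Fintype.card_fin] at e4
    have e5 : ∑ i, (c i).sp.card ≤ (∏ i, c i).sz := by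
      rw [prod_sz]; exact sum_le_sum fun i _ => (hs i).1
    have e6 := disjoint_of_card (fun i => (c i).sp) (by rw [← prod_sp]; omega)
    refine ⟨fun i => (⊤ : G.Subgraph).induce ((c i).sp : Set (Fin n)), fun i => ⟨?_, ?_⟩, ?_⟩
    · exact SimpleGraph.connected_induce_iff.mp (hs i).2.2
    · intro z hz
      have hz' : z ∈ (∏ i, c i).sp ∪ (∏ v, d v).sp := by rw [e2]; exact mem_univ _
      rw [prod_sp, prod_sp, mem_union, mem_biUnion, mem_biUnion] at hz'
      rcases hz' with ⟨j, -, hj⟩ | ⟨v, -, hv⟩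
      · rcases (hs j).2.1 z hj with h | h
        · by_cases hij : i = j
          · subst hij; exact hj
          · exact absurd h (disjoint_left.mp (hdis hij) hz)
        · exact absurd hz (h i)
      · rcases (mem_free Z).mp (hd v) with h | ⟨h1, h⟩
        · rw [h] at hv; simp at hv
        · rw [h, mem_singleton] at hv
          subst hv
          exact absurd hz (h1 i)
    · intro i j hij
      exact disjoint_coe.mpr (e6 hij)
  · rintro ⟨D, hD, hDd⟩
    let c : Fin k → Ob (Fin n) := fun i => ⟨(D i).verts.toFinset.card, (D i).verts.toFinset⟩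
    let U : Finset (Fin n) := univ.biUnion fun i => (D i).verts.toFinset
    let d : Fin n → Ob (Fin n) := fun v => if v ∈ U then 1 else ⟨1, {v}⟩
    refine mem_mul.mpr ⟨∏ i, c i, (mem_prodF _ _ _).mpr ⟨c, fun i => ?_, rfl⟩, ∏ v, d v,
      (mem_prodF _ _ _).mpr ⟨d, fun v => ?_, rfl⟩, ?_⟩
    · obtain ⟨v, hv⟩ := hne i
      refine (mem_part G Z).mpr ⟨v, hv, ?_⟩
      have := BM_complete G (alw Z i) (D i) (hD i).1 (fun w hw => by
        by_cases h : w ∈ Z i
        · exact Or.inl h
        · refine Or.inr fun j hj => ?_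
          by_cases hij : i = j
          · subst hij; exact h hj
          · exact Set.disjoint_left.mp (hDd hij) hw ((hD j).2 hj)) ((hD i).2 hv)
      rwa [Fintype.card_fin] at this
    · rw [mem_free]
      by_cases h : v ∈ U
      · exact Or.inl (if_pos h)
      · refine Or.inr ⟨fun j hj => h ?_, if_neg h⟩
        exact mem_biUnion.mpr ⟨j, mem_univ _, Set.mem_toFinset.mpr ((hD j).2 hj)⟩
    · apply Ob.ext
      · rw [mul_sz, prod_sz, prod_sz]
        have e1 : ∑ i, (c i).sz = U.card := by
          rw [card_biUnion]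
          intro i _ j _ hij
          exact Set.disjoint_toFinset.mpr (hDd hij)
        have e2 : ∑ v, (d v).sz = Uᶜ.card := by
          have : ∀ v, (d v).sz = if v ∈ Uᶜ then 1 else 0 := by
            intro v
            by_cases h : v ∈ U <;> simp [d, h]
          simp only [this]
          rw [sum_ite_mem, univ_inter, sum_const, smul_eq_mul, mul_one]
        rw [e1, e2, card_add_card_compl, Fintype.card_fin]
      · rw [mul_sp, prod_sp, prod_sp]
        apply eq_univ_of_forall
        intro v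
        by_cases h : v ∈ U
        · exact mem_union_left _ h
        · refine mem_union_right _ (mem_biUnion.mpr ⟨v, mem_univ _, ?_⟩)
          simp [d, h]

theorem count_lt : (TM G Z).count ⟨n, univ⟩ < 2 ^ (n * (n + 3) + 1) := by
  let r : ℝ := 1 / (4 * n + 4)
  have hn : (0 : ℝ) ≤ n := Nat.cast_nonneg n
  have hr : 0 < r := by positivity
  have hr1 : (4 * n + 4) * r = 1 := by simp only [r]; field_simp
  have h1 := count_le_wt hr.le (TM G Z) ⟨n, univ⟩
  have h2 : hom (wth r) (TM G Z) ≤ 2 ^ n := by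
    rw [TM, hom_mul, hom_prodF, hom_prodF]
    have a1 : ∏ i, hom (wth r) (part G Z i) ≤ 1 := by
      refine prod_le_one (fun i _ => hom_wth_nonneg hr.le _) fun i _ => ?_
      rw [part, map_sum]
      calc _ ≤ ∑ _v : Fin n, 2 * r := by
            apply sum_le_sum
            intro v _
            split_ifs
            · exact BM_wt G _ hr.le (by rw [Fintype.card_fin]; nlinarith) _ _
            · simpa using hr.le
        _ = n * (2 * r) := by simp
        _ ≤ 1 := by nlinarith
    have a2 : ∏ v, hom (wth r) (free Z v) ≤ ∏ _v : Fin n, (2 : ℝ) := by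
      refine prod_le_prod (fun i _ => hom_wth_nonneg hr.le _) fun v _ => ?_
      rw [free, map_add, hom_singleton, map_one]
      split_ifs
      · rw [hom_singleton]
        simp only [wth, MonoidHom.coe_mk, OneHom.coe_mk, pow_one]
        nlinarith
      · simp
    have a3 : 0 ≤ ∏ v, hom (wth r) (free Z v) := prod_nonneg fun i _ => hom_wth_nonneg hr.le _
    simp only [prod_const, card_univ, Fintype.card_fin] at a2
    nlinarith
  have h3 : ((TM G Z).count ⟨n, univ⟩ : ℝ) ≤ (8 * n + 8) ^ n := by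
    have e : ((4 * n + 4 : ℝ)) ^ n * r ^ n = 1 := by rw [← mul_pow, hr1, one_pow]
    have e2 : (8 * n + 8 : ℝ) ^ n = 2 ^ n * (4 * n + 4) ^ n := by rw [← mul_pow]; ring
    have e3 : (0 : ℝ) ≤ (4 * n + 4) ^ n := by positivity
    calc ((TM G Z).count ⟨n, univ⟩ : ℝ)
        = ((TM G Z).count ⟨n, univ⟩ * r ^ n) * (4 * n + 4) ^ n := by
          rw [mul_assoc, mul_comm (r ^ n), e, mul_one]
      _ ≤ 2 ^ n * (4 * n + 4) ^ n := mul_le_mul_of_nonneg_right (h1.trans h2) e3
      _ = _ := e2.symm
  have h4 : (TM G Z).count ⟨n, univ⟩ ≤ (8 * n + 8) ^ n := by exact_mod_cast h3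
  have h5 : 8 * n + 8 ≤ 2 ^ (n + 3) := by
    have : n + 1 ≤ 2 ^ n := Nat.lt_two_pow_self
    rw [pow_add]
    omega
  calc _ ≤ (2 ^ (n + 3)) ^ n := h4.trans (Nat.pow_le_pow_left h5 n)
    _ = 2 ^ (n * (n + 3)) := by rw [← pow_mul, mul_comm]
    _ < _ := Nat.pow_lt_pow_right (by norm_num) (Nat.lt_succ_self _)

/-- the variable -/
def tt (n : ℕ) : ℕ := 2 ^ (n * (n + 3) + 1)

/-- the modulus -/
def mm (n : ℕ) : ℕ := tt n ^ (n + 1)

theorem main_math (hne : ∀ i, (Z i).Nonempty) (hdis : Pairwise fun i j => Disjoint (Z i) (Z j)) :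
    (∑ Y : Finset (Fin n), (-1) ^ Y.card * hom (evh ((tt n : ℕ) : ZMod (mm n)) Y) (TM G Z) ≠ 0) ↔
      Sol G Z := by
  have ht : ((tt n : ℕ) : ZMod (mm n)) ^ (n + 1) = 0 := by
    rw [← Nat.cast_pow]; exact ZMod.natCast_self _
  rw [incl_excl, top_term _ n (Fintype.card_fin n) ht _ (TM_card G Z), ← mem_TM_iff G Z hne hdis,
    ← Nat.cast_pow, ← Nat.cast_mul, Ne, ZMod.natCast_eq_zero_iff, mm, pow_succ',
    Nat.mul_dvd_mul_iff_right (by unfold tt; positivity), ← Multiset.count_ne_zero]
  apply not_congr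
  constructor
  · intro h
    exact Nat.eq_zero_of_dvd_of_lt h (count_lt G Z)
  · intro h
    rw [h]; exact dvd_zero _

end total

end Pool.Agent.H441Z.DCS
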