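import Pool.Agent.H441Z.DCS.Loop
import Pool.Agent.H441Z.DCS.Math
import Pool.Agent.H441Z.DCS.Defs

set_option autoImplicit false
set_option maxHeartbeats 400000

namespace Pool.Agent.H441Z.DCS

open Pool.Agent.NPC Turing

abbrev In := List (List Bool) × List (List Bool)

def tP (a : In) : ℕ := tt a.1.length
def mP (a : In) : ℕ := mm a.1.length
def rg (a : In) : List ℕ := List.range a.1.length
def adj (a : In) (v u : ℕ) : Bool := (a.1.getD v []).getD u false
def inU (a : In) (v : ℕ) : Bool := a.2.any fun z => z.getD v false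
def rem (c v : ℕ) : Bool := c.bits.getD v false

def step (a : In) (c : ℕ) (z : List Bool) (vec : List ℕ) : List ℕ :=
  (rg a).map fun v => ((bif !(rem c v) && (z.getD v false || !(inU a v)) then tP a else 0) +
    vec.getD v 0 * ((rg a).map fun u => bif adj a v u then vec.getD u 0 else 0).sum) % mP a

def vecN (a : In) (c : ℕ) (z : List Bool) : List ℕ := (step a c z)^[a.1.length] []

def partP (a : In) (c : ℕ) (z : List Bool) : ℕ :=
  ((rg a).map fun v => bif z.getD v false then (vecN a c z).getD v 0 else 0).sum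

def freeP (a : In) (c v : ℕ) : ℕ := 1 + bif !(inU a v) && !(rem c v) then tP a else 0

def prodm (m : ℕ) (l : List ℕ) : ℕ := l.foldr (fun x s => x * s % m) 1

def valP (a : In) (c : ℕ) : ℕ :=
  prodm (mP a) (a.2.map (partP a c)) * prodm (mP a) ((rg a).map (freeP a c))

def par (a : In) (c : ℕ) : Bool := decide (((rg a).filter (rem c)).length % 2 = 0)

abbrev St := In × ℕ × ℕ × ℕ

def next (s : St) : St :=
  (s.1, s.2.1 + 1, bif par s.1 s.2.1 then (s.2.2.1 + valP s.1 s.2.1) % mP s.1 else s.2.2.1,
    bif par s.1 s.2.1 then s.2.2.2 else (s.2.2.2 + valP s.1 s.2.1) % mP s.1)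

def out (s : St) : Bool := !decide (s.2.2.1 % mP s.1 = s.2.2.2 % mP s.1)

theorem poly_two_pow {α : Type} [TEnc α] {u : α → ℕ} (hu : UPoly u) : NPC.Poly fun a => 2 ^ u a := by
  have h1 : NPC.Poly fun a => (List.replicate (u a) ()).map (fun _ => false) ++ [true] :=
    NPC.Poly.append (NPC.Poly.map (F := fun _ _ => false) hu (NPC.Poly.const false)) (NPC.Poly.const _)
  refine (NPC.Poly.valBits h1).congr fun a => ?_
  rw [List.map_replicate, valB_replicate_false]
  simp

theorem uPoly_n : UPoly fun a : In => a.1.length := UPoly.length (NPC.Poly.fst NPC.Poly.id)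

theorem uPoly_e : UPoly fun a : In => a.1.length * (a.1.length + 3) + 1 :=
  (uPoly_n.mul (uPoly_n.add (UPoly.const 3))).add (UPoly.const 1)

@[fun_prop] theorem poly_tP : NPC.Poly tP := poly_two_pow uPoly_e

@[fun_prop] theorem poly_mP : NPC.Poly mP :=
  (poly_two_pow (uPoly_e.mul (uPoly_n.add (UPoly.const 1)))).congr fun a => by
    simp only [mP, mm, tt, ← pow_mul]

@[fun_prop] theorem poly_rg : NPC.Poly rg := uPoly_n.range

theorem mP_pos (a : In) : 0 < mP a := by unfold mP mm tt; positivity

section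
variable {α : Type} [TEnc α]

@[fun_prop] theorem poly_adj {a : α → In} {v u : α → ℕ} (ha : NPC.Poly a) (hv : NPC.Poly v) (hu : NPC.Poly u) :
    NPC.Poly fun x => adj (a x) (v x) (u x) := by
  unfold adj; fun_prop

@[fun_prop] theorem poly_inU {a : α → In} {v : α → ℕ} (ha : NPC.Poly a) (hv : NPC.Poly v) :
    NPC.Poly fun x => inU (a x) (v x) := by
  unfold inU; fun_prop

@[fun_prop] theorem poly_rem {c v : α → ℕ} (hc : NPC.Poly c) (hv : NPC.Poly v) :
    NPC.Poly fun x => rem (c x) (v x) :=
  NPC.Poly.getD (NPC.Poly.natBits hc) hv (NPC.Poly.const false)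

theorem poly_step : NPC.Poly fun x : (In × ℕ × List Bool) × List ℕ =>
    step x.1.1 x.1.2.1 x.1.2.2 x.2 := by
  unfold step; fun_prop

theorem sz_in_le (a : In) : a.1.length ≤ sz a := by
  have h1 := length_lt_sz a.1
  have h2 : sz a = sz a.1 + sz a.2 + 1 := sz_pair a.1 a.2
  omega

theorem poly_vecN' : NPC.Poly fun x : In × ℕ × List Bool => vecN x.1 x.2.1 x.2.2 := by
  obtain ⟨r, hr⟩ := poly_mP.sz_le
  refine NPC.Poly.iterLen (l := fun x : In × ℕ × List Bool => x.1.1) (s := fun _ => [])
    (F := fun x => step x.1 x.2.1 x.2.2) (by fun_prop) (NPC.Poly.const _) poly_step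
    (Polynomial.X * (Polynomial.C 2 * r + Polynomial.C 1) + Polynomial.C 1) ?_
  intro x k _
  simp only [Polynomial.eval_add, Polynomial.eval_mul, Polynomial.eval_C, Polynomial.eval_X]
  cases k with
  | zero => simp
  | succ k =>
    rw [Function.iterate_succ_apply']
    have h1 : sz x.1 ≤ sz x := by
      have : sz x = sz x.1 + sz x.2 + 1 := sz_pair x.1 x.2
      omega
    have h2 := (hr x.1).trans (eval_mono r h1)
    refine (sz_le_length_mul _ (2 * r.eval (sz x)) ?_).trans ?_
    · intro y hy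
      obtain ⟨v, -, rfl⟩ := List.mem_map.mp hy
      exact (sz_nat_mono_le (Nat.mod_lt _ (mP_pos _)).le).trans (by omega)
    · have : (step x.1 x.2.1 x.2.2 ((step x.1 x.2.1 x.2.2)^[k] [])).length ≤ sz x := by
        simp only [step, rg, List.length_map, List.length_range]
        exact (sz_in_le _).trans h1
      exact Nat.add_le_add_right (Nat.mul_le_mul_right _ this) 1

@[fun_prop] theorem poly_vecN {a : α → In} {c : α → ℕ} {z : α → List Bool} (ha : NPC.Poly a)
    (hc : NPC.Poly c) (hz : NPC.Poly z) : NPC.Poly fun x => vecN (a x) (c x) (z x) :=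
  poly_vecN'.comp (f := fun x => (a x, c x, z x)) (by fun_prop)

@[fun_prop] theorem poly_partP {a : α → In} {c : α → ℕ} {z : α → List Bool} (ha : NPC.Poly a)
    (hc : NPC.Poly c) (hz : NPC.Poly z) : NPC.Poly fun x => partP (a x) (c x) (z x) := by
  unfold partP; fun_prop

@[fun_prop] theorem poly_freeP {a : α → In} {c v : α → ℕ} (ha : NPC.Poly a)
    (hc : NPC.Poly c) (hv : NPC.Poly v) : NPC.Poly fun x => freeP (a x) (c x) (v x) := by
  unfold freeP; fun_prop

theorem prodm_le {m : ℕ} (hm : 0 < m) (l : List ℕ) : prodm m l ≤ m := by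
  cases l with
  | nil => exact hm
  | cons x l => exact (Nat.mod_lt _ hm).le

@[fun_prop] theorem poly_prodm {a : α → In} {l : α → List ℕ} (ha : NPC.Poly a) (hl : NPC.Poly l) :
    NPC.Poly fun x => prodm (mP (a x)) (l x) := by
  have hm : NPC.Poly fun x => mP (a x) := by fun_prop
  obtain ⟨r, hr⟩ := hm.sz_le
  refine NPC.Poly.foldr (s := fun _ => 1) (F := fun x y s => y * s % mP (a x)) hl (NPC.Poly.const _)
    (by fun_prop) (Polynomial.C 2 * r) ?_
  intro x k _
  simp only [Polynomial.eval_mul, Polynomial.eval_C]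
  have := hr x
  exact (sz_nat_mono_le (prodm_le (mP_pos (a x)) _)).trans (by omega)

@[fun_prop] theorem poly_valP {a : α → In} {c : α → ℕ} (ha : NPC.Poly a) (hc : NPC.Poly c) :
    NPC.Poly fun x => valP (a x) (c x) := by
  unfold valP
  refine NPC.Poly.mul (poly_prodm ha ?_) (poly_prodm ha ?_)
  · exact NPC.Poly.map (F := fun x z => partP (a x) (c x) z) (by fun_prop) (by fun_prop)
  · exact NPC.Poly.map (F := fun x z => freeP (a x) (c x) z) (by fun_prop) (by fun_prop)

@[fun_prop] theorem poly_par {a : α → In} {c : α → ℕ} (ha : NPC.Poly a) (hc : NPC.Poly c) :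
    NPC.Poly fun x => par (a x) (c x) := by
  unfold par
  have : NPC.Poly fun x => (rg (a x)).filter (rem (c x)) :=
    NPC.Poly.filter (p := fun x v => rem (c x) v) (by fun_prop) (by fun_prop)
  fun_prop

end

theorem poly_next : NPC.Poly next := by unfold next; fun_prop

theorem poly_out : NPC.Poly out := by unfold out; fun_prop

theorem next_iter (a : In) (k : ℕ) : ∃ E O, next^[k] (a, 0, 0, 0) = (a, k, E, O) ∧ E ≤ mP a ∧
    O ≤ mP a ∧ (E : ZMod (mP a)) - O =
      ∑ c ∈ Finset.range k, (bif par a c then 1 else -1) * (valP a c : ZMod (mP a)) := by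
  induction k with
  | zero => exact ⟨0, 0, rfl, Nat.zero_le _, Nat.zero_le _, by simp⟩
  | succ k ih =>
    obtain ⟨E, O, h1, h2, h3, h4⟩ := ih
    rw [Function.iterate_succ_apply', h1, Finset.sum_range_succ, ← h4]
    refine ⟨_, _, rfl, ?_, ?_, ?_⟩
    · cases par a k
      · exact h2
      · exact (Nat.mod_lt _ (mP_pos a)).le
    · cases par a k
      · exact (Nat.mod_lt _ (mP_pos a)).le
      · exact h3
    · cases par a k
      · simp only [cond_false, ZMod.natCast_mod]
        push_cast; ring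
      · simp only [cond_true, ZMod.natCast_mod]
        push_cast; ring

theorem two_pow_le_mP (a : In) : 2 ^ a.1.length ≤ mP a := by
  unfold mP mm tt
  rw [← pow_mul]
  exact Nat.pow_le_pow_right (by norm_num) (by nlinarith [Nat.zero_le (a.1.length * (a.1.length + 3) * (a.1.length + 1))])

theorem exists_prog : ∃ (c : Cmd ℕ) (p : Polynomial ℕ), ∀ a : In, Runs c (inp (bits a))
    (inp [out (next^[2 ^ a.1.length] (a, 0, 0, 0))]) (2 ^ a.1.length * p.eval (sz a)) := by
  obtain ⟨r, hr⟩ := poly_mP.sz_le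
  refine exp_iter (x := fun a : In => ((a, 0, 0, 0) : St)) uPoly_n (by fun_prop) poly_next
    poly_out (Polynomial.X + Polynomial.C 6 * r + Polynomial.C 3) ?_
  intro a k hk
  obtain ⟨E, O, h1, h2, h3, -⟩ := next_iter a k
  rw [h1]
  simp only [Polynomial.eval_add, Polynomial.eval_mul, Polynomial.eval_C, Polynomial.eval_X,
    sz_pair]
  have e1 := sz_nat_mono_le h2
  have e2 := sz_nat_mono_le h3
  have e3 := sz_nat_mono_le (hk.trans (two_pow_le_mP a))
  have e4 := hr a
  have e5 : sz a = sz a.1 + sz a.2 + 1 := sz_pair a.1 a.2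
  omega

end Pool.Agent.H441Z.DCS
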